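import Pool.Agent.Helper58.MeanErgodic.Proof

open ENNReal Pool.Agent.Helper58.MeanErgodic

namespace Pool.Agent.Results.MP_27f8b5_an.MeanErgodicNotPowerBdd

/-- **Theorem.**  There are a countable discrete abelian group `G` and `μ ∈ M(G) = ℓ¹(G)` such that
for every `1 < p < ∞` with `p ≠ 2` the convolution operator `λ_p(μ)` on `Lᵖ(G) = ℓᵖ(G)` is mean
ergodic but not power bounded. -/
theorem result : ∃ (G : Type) (_ : CommGroup G) (_ : Countable G) (μ : G → ℂ),
    Summable (fun y => ‖μ y‖) ∧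
    ∀ (p : ℝ≥0∞) [Fact (1 ≤ p)], 1 < p → p ≠ ∞ → p ≠ 2 →
      ∃ T : lp (fun _ : G => ℂ) p → lp (fun _ : G => ℂ) p,
        IsConvolutionBy μ T ∧ MeanErgodic T ∧ ¬ PowerBounded T :=
  main

end Pool.Agent.Results.MP_27f8b5_an.MeanErgodicNotPowerBdd
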